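import Pool.Agent.D0H64.MX.Stm4
import Pool.Agent.D0H16.MX.Cmpd

/-!
Module KORB of project MX (helper64): the numbers of orbits on the cosets of the preimages of two subgroups of
`S_m`. Proof by Burnside's lemma:
`|A| |I| orb I (Pre V) = ∑_{g ∈ G} |g I g⁻¹ ∩ A| orb (ρ (g I g⁻¹ ∩ A)) V`.
-/

set_option autoImplicit false

open scoped Classical

namespace Pool.Agent.D0H3.MX

open Pool.Agent.D0H64.MX
open Pool.Agent.D0H15.TI (orb)

/-- sums over a group and over a quotient -/
theorem sum_hom {A P : Type} [Group A] [Group P] [Fintype A] [Fintype P] (ρ : A →* P)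
    (hρ : Function.Surjective ρ) (F : P → ℕ) : ∑ a, F (ρ a) = Nat.card ρ.ker * ∑ p, F p := by
  rw [Finset.sum_comp F ρ, Finset.image_univ_of_surjective hρ, Finset.mul_sum]
  apply Finset.sum_congr rfl
  intro p _
  rw [smul_eq_mul]
  congr 1
  have h1 := MonoidHom.card_fiber_eq_of_mem_range ρ (hρ p) (hρ 1)
  rw [h1, Nat.card_eq_fintype_card, Fintype.card_subtype]
  congr 1
  ext x
  simp [MonoidHom.mem_ker]

theorem card_hom {A P : Type} [Group A] [Group P] [Fintype A] [Fintype P] (ρ : A →* P)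
    (hρ : Function.Surjective ρ) : Nat.card A = Nat.card ρ.ker * Nat.card P := by
  have := sum_hom ρ hρ (fun _ => 1)
  simpa [Nat.card_eq_fintype_card] using this

/-- Burnside's lemma with indicator functions -/
theorem burn {P : Type} [Group P] [Fintype P] (J V : Subgroup P) :
    ∑ s : P, ∑ u : J, (if s * u * s⁻¹ ∈ V then 1 else 0) = Nat.card J * Nat.card V * orb J V := by
  rw [← Pool.Agent.D0H21.TI.t_BURN P J V]
  apply Finset.sum_congr rfl
  intro s _
  rw [Finset.sum_boole, Nat.cast_id, Nat.card_eq_fintype_card, Fintype.card_subtype]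
  refine Finset.card_bij (fun (u : J) _ => (u : P)) ?_ ?_ ?_
  · intro u hu
    simp only [Finset.mem_filter, Finset.mem_univ, true_and] at hu ⊢
    exact ⟨u.2, hu⟩
  · intro u _ v _ h
    exact Subtype.ext h
  · intro x hx
    simp only [Finset.mem_filter, Finset.mem_univ, true_and] at hx
    exact ⟨⟨x, hx.1⟩, by simpa using hx.2, rfl⟩

section
variable {G : Type} [Group G] [Fintype G] {m : ℕ} (A : Subgroup G) (ρ : A →* Equiv.Perm (Fin m))
  (I : Subgroup G)

/-- `g I g⁻¹ ∩ A` -/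
def J (g : G) : Subgroup A := I.comap ((MulAut.conj g⁻¹).toMonoidHom.comp A.subtype)

theorem mem_J {g : G} {a : A} : a ∈ J A I g ↔ g⁻¹ * a * g ∈ I := by
  simp [J, Subgroup.mem_comap]

theorem card_J_le (g : G) : Nat.card (J A I g) ≤ Nat.card I := by
  apply Nat.card_le_card_of_injective
    (fun a : J A I g => (⟨g⁻¹ * (a : A) * g, (mem_J A I).1 a.2⟩ : I))
  intro a b h
  have h1 : g⁻¹ * ((a : A) : G) * g = g⁻¹ * ((b : A) : G) * g := congrArg Subtype.val h
  have h2 : ((a : A) : G) = ((b : A) : G) := by simpa using h1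
  exact Subtype.ext (Subtype.ext h2)

theorem mem_Pre {V : Subgroup (Equiv.Perm (Fin m))} {x : G} :
    x ∈ Pre A ρ V ↔ ∃ h : x ∈ A, ρ ⟨x, h⟩ ∈ V := by
  simp only [Pre, Subgroup.mem_map, Subgroup.mem_comap]
  constructor
  · rintro ⟨a, ha, rfl⟩
    exact ⟨a.2, ha⟩
  · rintro ⟨h, hx⟩
    exact ⟨⟨x, h⟩, hx, rfl⟩

theorem cnt (V : Subgroup (Equiv.Perm (Fin m))) (b : A) (g : G) :
    (∑ u : I, if ((b : G) * g) * u * ((b : G) * g)⁻¹ ∈ Pre A ρ V then 1 else 0) =
      ∑ a : J A I g, if ρ b * ρ a * (ρ b)⁻¹ ∈ V then 1 else 0 := by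
  rw [Finset.sum_boole, Finset.sum_boole]
  simp only [Nat.cast_id]
  symm
  refine Finset.card_bij (fun (a : J A I g) _ =>
    (⟨g⁻¹ * ((a : A) : G) * g, (mem_J A I).1 a.2⟩ : I)) ?_ ?_ ?_
  · intro a ha
    simp only [Finset.mem_filter, Finset.mem_univ, true_and] at ha ⊢
    rw [mem_Pre]
    have e : (b : G) * g * (g⁻¹ * ((a : A) : G) * g) * ((b : G) * g)⁻¹ = ((b * a * b⁻¹ : A) : G) := by
      push_cast; group
    rw [e]
    refine ⟨(b * a * b⁻¹ : A).2, ?_⟩
    have e2 : (⟨((b * a * b⁻¹ : A) : G), (b * a * b⁻¹ : A).2⟩ : A) = b * a * b⁻¹ := rfl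
    rw [e2, map_mul, map_mul, map_inv]
    exact ha
  · intro a _ a' _ h
    have h1 : g⁻¹ * ((a : A) : G) * g = g⁻¹ * ((a' : A) : G) * g := congrArg Subtype.val h
    have h2 : ((a : A) : G) = ((a' : A) : G) := by simpa using h1
    exact Subtype.ext (Subtype.ext h2)
  · intro u hu
    simp only [Finset.mem_filter, Finset.mem_univ, true_and] at hu
    rw [mem_Pre] at hu
    obtain ⟨h1, h2⟩ := hu
    have h3 : g * (u : G) * g⁻¹ ∈ A := by
      have := A.mul_mem (A.mul_mem (A.inv_mem b.2) h1) b.2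
      have e : (b : G)⁻¹ * ((b : G) * g * (u : G) * ((b : G) * g)⁻¹) * b = g * u * g⁻¹ := by group
      rwa [e] at this
    have h4 : (⟨g * (u : G) * g⁻¹, h3⟩ : A) ∈ J A I g := by
      rw [mem_J]
      have e : g⁻¹ * (g * (u : G) * g⁻¹) * g = u := by group
      show g⁻¹ * (g * (u : G) * g⁻¹) * g ∈ I
      rw [e]; exact u.2
    refine ⟨⟨⟨g * (u : G) * g⁻¹, h3⟩, h4⟩, ?_, ?_⟩
    · simp only [Finset.mem_filter, Finset.mem_univ, true_and]
      have e : (⟨(b : G) * g * (u : G) * ((b : G) * g)⁻¹, h1⟩ : A) =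
          b * ⟨g * (u : G) * g⁻¹, h3⟩ * b⁻¹ := by
        apply Subtype.ext
        push_cast
        group
      rw [e, map_mul, map_mul, map_inv] at h2
      exact h2
    · apply Subtype.ext
      show g⁻¹ * (g * (u : G) * g⁻¹) * g = u
      group

theorem star (hρ : Function.Surjective ρ) (V : Subgroup (Equiv.Perm (Fin m))) :
    Nat.card A * Nat.card I * orb I (Pre A ρ V) =
      ∑ g : G, Nat.card (J A I g) * orb ((J A I g).map ρ) V := by
  have hcPre : Nat.card (Pre A ρ V) = Nat.card ρ.ker * Nat.card V := by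
    have h1 : Nat.card (Pre A ρ V) = Nat.card (V.comap ρ) :=
      Nat.card_congr ((V.comap ρ).equivMapOfInjective A.subtype A.subtype_injective).symm.toEquiv
    have h2 := sum_hom ρ hρ (fun p => if p ∈ V then 1 else 0)
    rw [Finset.sum_boole, Finset.sum_boole] at h2
    simp only [Nat.cast_id] at h2
    rw [h1, Nat.card_eq_fintype_card (α := V.comap ρ), Nat.card_eq_fintype_card (α := V),
      Fintype.card_subtype, Fintype.card_subtype]
    exact h2
  have hpos : 0 < Nat.card ρ.ker * Nat.card V := Nat.mul_pos Nat.card_pos Nat.card_pos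
  have key : ∀ g : G, ∑ b : A, (∑ u : I,
      if ((b : G) * g) * u * ((b : G) * g)⁻¹ ∈ Pre A ρ V then 1 else 0) =
      Nat.card ρ.ker * Nat.card V * (Nat.card (J A I g) * orb ((J A I g).map ρ) V) := by
    intro g
    let F : Equiv.Perm (Fin m) → ℕ := fun s => ∑ a : J A I g, if s * ρ a * s⁻¹ ∈ V then 1 else 0
    have h1 : ∀ b : A, (∑ u : I, if ((b : G) * g) * u * ((b : G) * g)⁻¹ ∈ Pre A ρ V then 1 else 0) =
        F (ρ b) := fun b => cnt A ρ I V b g
    refine (Finset.sum_congr rfl (fun b _ => h1 b)).trans ((sum_hom ρ hρ F).trans ?_)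
    have hs : Function.Surjective (ρ.subgroupMap (J A I g)) := ρ.subgroupMap_surjective _
    have h2 : ∀ s : Equiv.Perm (Fin m), (∑ a : J A I g, if s * ρ a * s⁻¹ ∈ V then 1 else 0) =
        Nat.card (ρ.subgroupMap (J A I g)).ker *
          ∑ u : (J A I g).map ρ, if s * u * s⁻¹ ∈ V then 1 else 0 := by
      intro s
      exact sum_hom (ρ.subgroupMap (J A I g)) hs (fun u => if s * u * s⁻¹ ∈ V then 1 else 0)
    have h3 : ∑ s, F s = Nat.card (ρ.subgroupMap (J A I g)).ker *
        (Nat.card ((J A I g).map ρ) * Nat.card V * orb ((J A I g).map ρ) V) := by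
      rw [← burn, Finset.mul_sum]
      exact Finset.sum_congr rfl (fun s _ => h2 s)
    rw [h3, card_hom (ρ.subgroupMap (J A I g)) hs]
    ring
  have h3 : ∑ b : A, ∑ g : G, (∑ u : I,
      if ((b : G) * g) * u * ((b : G) * g)⁻¹ ∈ Pre A ρ V then 1 else 0) =
      Nat.card A * (Nat.card I * Nat.card (Pre A ρ V) * orb I (Pre A ρ V)) := by
    have h4 : ∀ b : A, (∑ g : G, ∑ u : I,
        if ((b : G) * g) * u * ((b : G) * g)⁻¹ ∈ Pre A ρ V then 1 else 0) =
        Nat.card I * Nat.card (Pre A ρ V) * orb I (Pre A ρ V) := by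
      intro b
      rw [← burn I (Pre A ρ V)]
      exact Fintype.sum_equiv (Equiv.mulLeft (b : G)) _ _ (fun g => rfl)
    rw [Finset.sum_congr rfl (fun b _ => h4 b), Finset.sum_const, Finset.card_univ, smul_eq_mul,
      Nat.card_eq_fintype_card (α := A)]
  rw [Finset.sum_comm, Finset.sum_congr rfl (fun g _ => key g), ← Finset.mul_sum, hcPre] at h3
  apply Nat.eq_of_mul_eq_mul_left hpos
  rw [h3]; ring

theorem index_Pre (hρ : Function.Surjective ρ) (V : Subgroup (Equiv.Perm (Fin m))) :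
    Nat.card A * (Pre A ρ V).index = Nat.card G * V.index := by
  have h1 : (Pre A ρ V).index = (V.comap ρ).index * A.index := by
    have h2 := Subgroup.index_map (V.comap ρ) A.subtype
    rw [Subgroup.ker_subtype, sup_bot_eq, Subgroup.range_subtype] at h2
    exact h2
  rw [h1, Subgroup.index_comap_of_surjective V hρ, mul_comm V.index, ← mul_assoc,
    Subgroup.card_mul_index]

end

theorem orb_le_index {G : Type} [Group G] [Finite G] (I H : Subgroup G) : orb I H ≤ H.index := by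
  unfold orb Subgroup.index
  exact Nat.card_le_card_of_surjective (Quotient.mk _) Quotient.mk_surjective

theorem arith {c k n m o p L : ℤ} (hk : 0 ≤ k) (hkc : k ≤ c) (hn : 0 ≤ n) (hmL : m ≤ L)
    (h : n * (m - p) ≤ L * (n - o)) : n * (c * m - k * p) ≤ L * (c * n - k * o) := by
  have h1 : n * (c * m - k * p) = n * m * (c - k) + k * (n * (m - p)) := by ring
  have h2 : L * (c * n - k * o) = L * n * (c - k) + k * (L * (n - o)) := by ring
  rw [h1, h2]
  have h3 : n * m * (c - k) ≤ L * n * (c - k) := by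
    have : n * m ≤ L * n := by nlinarith
    exact mul_le_mul_of_nonneg_right this (by linarith)
  have h4 : k * (n * (m - p)) ≤ k * (L * (n - o)) := mul_le_mul_of_nonneg_left h hk
  linarith

theorem final_arith {G : Type} [Fintype G] (cA cI iV oV iS oS vi m L : ℕ) (J p q : G → ℕ)
    (s1 : cA * cI * oV = ∑ g, J g * q g) (s2 : cA * cI * oS = ∑ g, J g * p g)
    (i1 : cA * iV = Fintype.card G * vi) (i2 : cA * iS = Fintype.card G * m)
    (hJ : ∀ g, J g ≤ cI) (hmL : m ≤ L) (hp : ∀ g, p g ≤ m) (hq : ∀ g, q g ≤ vi)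
    (h : ∀ g, vi * (m - p g) ≤ L * (vi - q g)) (b1 : oS ≤ iS) (b2 : oV ≤ iV)
    (hcA : 0 < cA) (hcI : 0 < cI) : vi * (iS - oS) ≤ L * (iV - oV) := by
  have t1 : (cA * cI : ℤ) * (iV - oV) = ∑ g : G, ((cI : ℤ) * vi - J g * q g) := by
    rw [Finset.sum_sub_distrib, Finset.sum_const, Finset.card_univ, nsmul_eq_mul, mul_sub]
    have e1 : (cA * cI * oV : ℤ) = ∑ g : G, (J g : ℤ) * q g := by exact_mod_cast s1
    have e2 : (cA * iV : ℤ) = Fintype.card G * vi := by exact_mod_cast i1
    rw [e1]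
    linear_combination (cI : ℤ) * e2
  have t2 : (cA * cI : ℤ) * (iS - oS) = ∑ g : G, ((cI : ℤ) * m - J g * p g) := by
    rw [Finset.sum_sub_distrib, Finset.sum_const, Finset.card_univ, nsmul_eq_mul, mul_sub]
    have e1 : (cA * cI * oS : ℤ) = ∑ g : G, (J g : ℤ) * p g := by exact_mod_cast s2
    have e2 : (cA * iS : ℤ) = Fintype.card G * m := by exact_mod_cast i2
    rw [e1]
    linear_combination (cI : ℤ) * e2
  have hsum : ∑ g : G, (vi : ℤ) * ((cI : ℤ) * m - J g * p g) ≤
      ∑ g : G, (L : ℤ) * ((cI : ℤ) * vi - J g * q g) := by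
    apply Finset.sum_le_sum
    intro g _
    have a4 := h g
    have a5 : (vi : ℤ) * ((m : ℤ) - p g) ≤ L * ((vi : ℤ) - q g) := by
      rw [← Nat.cast_sub (hp g), ← Nat.cast_sub (hq g)]
      exact_mod_cast a4
    exact arith (Nat.cast_nonneg _) (by exact_mod_cast hJ g) (Nat.cast_nonneg _)
      (by exact_mod_cast hmL) a5
  rw [← Finset.mul_sum, ← Finset.mul_sum, ← t1, ← t2] at hsum
  have hAI : (0 : ℤ) < cA * cI := by positivity
  have hfin : (vi : ℤ) * ((iS : ℤ) - oS) ≤ L * ((iV : ℤ) - oV) := by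
    apply le_of_mul_le_mul_left _ hAI
    linarith [hsum]
  rw [← Nat.cast_sub b1, ← Nat.cast_sub b2] at hfin
  exact_mod_cast hfin

theorem t_KORB : S_ORBM → S_KORB := by
  rintro ⟨C, hC⟩
  refine ⟨C + 1, fun m hm G _ _ A ρ hρ V hV i I => ?_⟩
  have := Fintype.ofFinite G
  have hmap : (MulAction.stabilizer (Equiv.Perm (Fin m)) i).map
      (MulEquiv.refl (Equiv.Perm (Fin m))).toMonoidHom =
        MulAction.stabilizer (Equiv.Perm (Fin m)) i := by
    ext x; simp
  have hSi : (MulAction.stabilizer (Equiv.Perm (Fin m)) i).index = m :=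
    (Pool.Agent.D0H16.MX.orb_point (MulEquiv.refl (Equiv.Perm (Fin m))) _ i hmap ⊥).2
  have hineq : ∀ I' : Subgroup (Equiv.Perm (Fin m)),
      V.index * (m - orb I' (MulAction.stabilizer (Equiv.Perm (Fin m)) i)) ≤
        C * m * Nat.log 2 m * (V.index - orb I' V) := by
    intro I'
    have h1 := Pool.Agent.D0H16.MX.orb_ineq C m (fun X _ _ _ _ I => hC m hm X I)
      (MulEquiv.refl (Equiv.Perm (Fin m))) V _ hV i hmap I'
    rw [hSi] at h1
    exact h1
  have hlog : 1 ≤ Nat.log 2 m := Nat.le_log_of_pow_le (by norm_num) (by omega)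
  have hmL : m ≤ (C + 1) * m * Nat.log 2 m := by
    calc m = 1 * m * 1 := by ring
      _ ≤ (C + 1) * m * Nat.log 2 m :=
        Nat.mul_le_mul (Nat.mul_le_mul_right _ (Nat.succ_le_succ (Nat.zero_le C))) hlog
  have s1 := star A ρ I hρ V
  have s2 := star A ρ I hρ (MulAction.stabilizer (Equiv.Perm (Fin m)) i)
  have i1 := index_Pre A ρ hρ V
  have i2 := index_Pre A ρ hρ (MulAction.stabilizer (Equiv.Perm (Fin m)) i)
  rw [hSi] at i2
  rw [Nat.card_eq_fintype_card (α := G)] at i1 i2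
  exact final_arith (Nat.card A) (Nat.card I) _ _ _ _ V.index m _ (fun g => Nat.card (J A I g))
    (fun g => orb ((J A I g).map ρ) (MulAction.stabilizer (Equiv.Perm (Fin m)) i))
    (fun g => orb ((J A I g).map ρ) V) s1 s2 i1 i2 (card_J_le A I) hmL
    (fun g => (orb_le_index _ _).trans_eq hSi) (fun g => orb_le_index _ _)
    (fun g => (hineq _).trans (Nat.mul_le_mul_right _ (Nat.mul_le_mul_right _
      (Nat.mul_le_mul_right _ (Nat.le_succ C)))))
    (orb_le_index _ _) (orb_le_index _ _) Nat.card_pos Nat.card_pos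

end Pool.Agent.D0H3.MX
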