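import Pool.Agent.D0H64.MX.Stm3

/-!
Modules MOV and ORBM of project MX (helper64): points moved by permutations in transitive faithful actions of
`S_m`, and orbits of subgroups (Burnside's lemma).
-/

set_option autoImplicit false

namespace Pool.Agent.D0H3.MX

open Pool.Agent.D0H64.MX

section
variable {G : Type} [Group G] {X : Type} [MulAction G X]

theorem mv_conj {g h : G} (hc : IsConj g h) : mv X g = mv X h := by
  obtain ⟨k, hk⟩ := isConj_iff.mp hc
  unfold mv
  refine Nat.card_congr ⟨fun x => ⟨k • x.1, ?_⟩, fun x => ⟨k⁻¹ • x.1, ?_⟩, ?_, ?_⟩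
  · intro h1
    apply x.2
    have h2 : k • (g • x.1) = k • x.1 := by
      rw [← hk] at h1
      simpa [mul_smul] using h1
    exact MulAction.injective k h2
  · intro h1
    apply x.2
    have h2 : ∀ y : X, h • y = k • (g • (k⁻¹ • y)) := by
      intro y
      rw [← hk]; simp [mul_smul]
    rw [h2 x.1, h1, smul_inv_smul]
  · intro x; simp
  · intro x; simp

theorem card_le_mul [Finite X] (g : G) (l : List G) (hl : ∀ h ∈ l, IsConj g h)
    (hx : ∀ x : X, ∃ h ∈ l, h • x ≠ x) : Nat.card X ≤ l.length * mv X g := by
  classical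
  have := Fintype.ofFinite X
  have h1 : (Finset.univ : Finset X) ⊆
      l.toFinset.biUnion (fun h => Finset.univ.filter (fun x : X => h • x ≠ x)) := by
    intro x _
    obtain ⟨h, hh, hx'⟩ := hx x
    simp only [Finset.mem_biUnion, List.mem_toFinset, Finset.mem_filter, Finset.mem_univ, true_and]
    exact ⟨h, hh, hx'⟩
  have h2 := Finset.card_le_card h1
  have h3 : (l.toFinset.biUnion (fun h => Finset.univ.filter (fun x : X => h • x ≠ x))).card ≤
      l.toFinset.card * mv X g := by
    apply Finset.card_biUnion_le_card_mul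
    intro h hh
    rw [mv_conj (X := X) (hl h (List.mem_toFinset.mp hh))]
    unfold mv
    rw [Nat.card_eq_fintype_card, Fintype.card_subtype]
  rw [Nat.card_eq_fintype_card, ← Finset.card_univ]
  exact h2.trans (h3.trans (Nat.mul_le_mul_right _ (List.toFinset_card_le l)))

end

theorem moved {m : ℕ} (hm : 3 ≤ m) {X : Type} [MulAction (Equiv.Perm (Fin m)) X]
    [FaithfulSMul (Equiv.Perm (Fin m)) X] [MulAction.IsPretransitive (Equiv.Perm (Fin m)) X]
    (l : List (Equiv.Perm (Fin m)))
    (hl : alternatingGroup (Fin m) ≤ Subgroup.closure {h | h ∈ l}) (x : X) :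
    ∃ h ∈ l, h • x ≠ x := by
  by_contra hcon
  push Not at hcon
  have h1 : Subgroup.closure {h | h ∈ l} ≤ MulAction.stabilizer (Equiv.Perm (Fin m)) x := by
    rw [Subgroup.closure_le]
    intro h hh
    exact hcon h hh
  have h2 : ∀ a ∈ alternatingGroup (Fin m), ∀ y : X, a • y = y := by
    intro a ha y
    obtain ⟨k, rfl⟩ := MulAction.exists_smul_eq (Equiv.Perm (Fin m)) x y
    have h3 : k⁻¹ * a * k ∈ alternatingGroup (Fin m) := by
      have := (alternatingGroup.normal (α := Fin m)).conj_mem a ha k⁻¹
      simpa using this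
    have h4 : (k⁻¹ * a * k) • x = x := h1 (hl h3)
    calc a • k • x = k • ((k⁻¹ * a * k) • x) := by simp [mul_smul]
      _ = k • x := by rw [h4]
  have h5 : ∀ a ∈ alternatingGroup (Fin m), a = 1 := by
    intro a ha
    apply FaithfulSMul.eq_of_smul_eq_smul (α := X)
    intro y
    rw [h2 a ha y, one_smul]
  obtain ⟨n, rfl⟩ : ∃ n, m = n + 3 := ⟨m - 3, by omega⟩
  obtain ⟨a, b, hab⟩ := exists_pair_ne (alternatingGroup (Fin (n + 3)))
  apply hab
  apply Subtype.ext
  rw [h5 a.1 a.2, h5 b.1 b.2]

theorem t_MOV : S_GEN → S_MOV := by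
  rintro ⟨C, hC⟩
  refine ⟨C, fun m hm X _ _ _ _ g hg => ?_⟩
  obtain ⟨l, h1, h2, h3⟩ := hC m hm g hg
  have h4 : Nat.card X ≤ l.length * mv X g :=
    card_le_mul g l h2 (fun x => moved (by omega) l h3 x)
  calc Nat.card X * mv (Fin m) g ≤ l.length * mv X g * mv (Fin m) g := Nat.mul_le_mul_right _ h4
    _ = l.length * mv (Fin m) g * mv X g := by ring
    _ ≤ C * m * Nat.log 2 m * mv X g := Nat.mul_le_mul_right _ h1

section
variable {G : Type} [Group G] {X : Type} [MulAction G X]

/-- the points moved by an element of `I` are at most twice the difference -/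
theorem mv_add_le [Finite X] (I : Subgroup G) (g : G) (hg : g ∈ I) :
    mv X g + 2 * Nat.card (MulAction.orbitRel.Quotient I X) ≤ 2 * Nat.card X := by
  classical
  have := Fintype.ofFinite X
  have : Finite (MulAction.orbitRel.Quotient I X) := Quotient.finite _
  have := Fintype.ofFinite (MulAction.orbitRel.Quotient I X)
  let π : X → MulAction.orbitRel.Quotient I X := Quotient.mk _
  have e1 : Nat.card X = ∑ q : MulAction.orbitRel.Quotient I X,
      (Finset.univ.filter (fun x : X => π x = q)).card := by
    rw [Nat.card_eq_fintype_card, ← Finset.card_univ]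
    exact Finset.card_eq_sum_card_fiberwise (fun x _ => Finset.mem_coe.mpr (Finset.mem_univ _))
  have e2 : mv X g = ∑ q : MulAction.orbitRel.Quotient I X,
      ((Finset.univ.filter (fun x : X => g • x ≠ x)).filter (fun x : X => π x = q)).card := by
    unfold mv
    rw [Nat.card_eq_fintype_card, Fintype.card_subtype]
    exact Finset.card_eq_sum_card_fiberwise (fun x _ => Finset.mem_coe.mpr (Finset.mem_univ _))
  have e3 : 2 * Nat.card (MulAction.orbitRel.Quotient I X) =
      ∑ _q : MulAction.orbitRel.Quotient I X, 2 := by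
    rw [Nat.card_eq_fintype_card, Finset.sum_const, Finset.card_univ, smul_eq_mul, mul_comm]
  rw [e1, e2, e3, Finset.mul_sum, ← Finset.sum_add_distrib]
  apply Finset.sum_le_sum
  intro q _
  set A := (Finset.univ.filter (fun x : X => g • x ≠ x)).filter (fun x : X => π x = q) with hA
  set B := Finset.univ.filter (fun x : X => π x = q) with hB
  have hAB : A ⊆ B := by
    intro x hx
    simp only [hA, hB, Finset.mem_filter, Finset.mem_univ, true_and] at hx ⊢
    exact hx.2
  have hc := Finset.card_le_card hAB
  have hB1 : 1 ≤ B.card := by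
    obtain ⟨x, hx⟩ := Quotient.exists_rep q
    apply Finset.card_pos.mpr
    exact ⟨x, by simp only [hB, Finset.mem_filter, Finset.mem_univ, true_and]; exact hx⟩
  rcases A.eq_empty_or_nonempty with h0 | ⟨x, hx⟩
  · rw [h0, Finset.card_empty]; omega
  · have hx' : g • x ≠ x ∧ π x = q := by
      simpa only [hA, Finset.mem_filter, Finset.mem_univ, true_and] using hx
    have h2 : 2 ≤ B.card := by
      have : ({x, g • x} : Finset X) ⊆ B := by
        intro y hy
        rw [Finset.mem_insert, Finset.mem_singleton] at hy
        simp only [hB, Finset.mem_filter, Finset.mem_univ, true_and]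
        rcases hy with rfl | rfl
        · exact hx'.2
        · rw [← hx'.2]
          apply Quotient.sound
          exact ⟨⟨g, hg⟩, rfl⟩
      calc 2 = ({x, g • x} : Finset X).card := (Finset.card_pair hx'.1.symm).symm
        _ ≤ B.card := Finset.card_le_card this
    omega

/-- Burnside -/
theorem exists_mv [Finite X] [Finite G] (I : Subgroup G) :
    ∃ g ∈ I, Nat.card X ≤ mv X g + Nat.card (MulAction.orbitRel.Quotient I X) := by
  classical
  have := Fintype.ofFinite X
  have := Fintype.ofFinite G
  have : Finite (MulAction.orbitRel.Quotient I X) := Quotient.finite _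
  have := Fintype.ofFinite (MulAction.orbitRel.Quotient I X)
  have hb := MulAction.sum_card_fixedBy_eq_card_orbits_mul_card_group I X
  by_contra hcon
  push Not at hcon
  have h1 : ∀ g : I, Fintype.card (MulAction.orbitRel.Quotient I X) + 1 ≤
      Fintype.card (MulAction.fixedBy X g) := by
    intro g
    have h2 := hcon g.1 g.2
    have h3 : mv X g.1 + Fintype.card (MulAction.fixedBy X g) = Nat.card X := by
      unfold mv
      rw [Nat.card_eq_fintype_card, Nat.card_eq_fintype_card]
      have := Fintype.card_subtype_compl (fun x : X => g.1 • x = x)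
      have h4 : Fintype.card {x : X // g.1 • x = x} = Fintype.card (MulAction.fixedBy X g) :=
        Fintype.card_congr (Equiv.refl _)
      have h5 := Fintype.card_subtype_le (fun x : X => g.1 • x = x)
      have h6 : Fintype.card {x : X // g.1 • x ≠ x} = Fintype.card {x : X // ¬ g.1 • x = x} :=
        Fintype.card_congr (Equiv.refl _)
      omega
    rw [Nat.card_eq_fintype_card (α := MulAction.orbitRel.Quotient I X)] at h2
    omega
  have h2 : ∑ g : I, (Fintype.card (MulAction.orbitRel.Quotient I X) + 1) ≤
      ∑ g : I, Fintype.card (MulAction.fixedBy X g) := Finset.sum_le_sum fun g _ => h1 g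
  rw [hb, Finset.sum_const, Finset.card_univ, smul_eq_mul] at h2
  have h3 : 0 < Fintype.card I := Fintype.card_pos
  have h4 : Fintype.card I * (Fintype.card (MulAction.orbitRel.Quotient I X) + 1) =
      Fintype.card (MulAction.orbitRel.Quotient I X) * Fintype.card I + Fintype.card I := by ring
  have h5 : Fintype.card (Quotient (MulAction.orbitRel I X)) =
    Fintype.card (MulAction.orbitRel.Quotient I X) := Fintype.card_congr (Equiv.refl _)
  rw [h4] at h2
  simp only [h5] at h2
  omega

end

theorem t_ORBM : S_MOV → S_ORBM := by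
  rintro ⟨C, hC⟩
  refine ⟨2 * C, fun m hm X _ _ _ _ I => ?_⟩
  obtain ⟨g, hg, h1⟩ := exists_mv (X := Fin m) I
  rw [Nat.card_eq_fintype_card, Fintype.card_fin] at h1
  have h2 := mv_add_le (X := X) I g hg
  by_cases hg1 : g = 1
  · have h3 : mv (Fin m) g = 0 := by
      unfold mv
      subst hg1
      rw [Nat.card_eq_zero]
      left
      exact ⟨fun x => x.2 (one_smul _ _)⟩
    have h4 : m - Nat.card (MulAction.orbitRel.Quotient I (Fin m)) = 0 := by omega
    rw [h4, mul_zero]
    exact Nat.zero_le _
  · have h3 := hC m hm X g hg1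
    calc Nat.card X * (m - Nat.card (MulAction.orbitRel.Quotient I (Fin m)))
        ≤ Nat.card X * mv (Fin m) g := Nat.mul_le_mul_left _ (by omega)
      _ ≤ C * m * Nat.log 2 m * mv X g := h3
      _ ≤ C * m * Nat.log 2 m * (2 * (Nat.card X - Nat.card (MulAction.orbitRel.Quotient I X))) :=
          Nat.mul_le_mul_left _ (by omega)
      _ = 2 * C * m * Nat.log 2 m * (Nat.card X - Nat.card (MulAction.orbitRel.Quotient I X)) := by
          ring

end Pool.Agent.D0H3.MX
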